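import Pool.Agent.Q112.TS.Close
import Pool.Agent.Q53.TS.HOM
import Pool.Agent.Q53.TS.LOW
import Pool.Agent.Q53.TS.ASM

/-!
# The Sidorenko exponent of the 3-uniform tight cycle `C_{3ℓ}^{(3)}` is `3ℓ + O(1)`
-/

namespace Pool.Agent.Results.MP_de2958_co.TightCycleExponent

open Q112.Sid Q112.TS

/-- `3ℓ - 2 ≤ s(C_{3ℓ}^{(3)}) ≤ 3ℓ + 20` for every `ℓ ≥ 4`, and hence
`s(C_{3ℓ}^{(3)}) / ℓ → 3` as `ℓ → ∞`. -/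
theorem result :
    (∀ (ℓ : ℕ) (hℓ : 4 ≤ ℓ),
      (((3 * ℓ - 2 : ℝ)) : EReal) ≤ sidExp (tightCycle ℓ (by omega)) ∧
      sidExp (tightCycle ℓ (by omega)) ≤ (((3 * ℓ + 20 : ℝ)) : EReal)) ∧
    ∀ ε : ℝ, 0 < ε → ∃ ℓ₀ : ℕ, ∀ (ℓ : ℕ) (hℓ : 1 ≤ ℓ), ℓ₀ ≤ ℓ →
      |(sidExp (tightCycle ℓ hℓ)).toReal / ℓ - 3| < ε :=
  Pool.Agent.Q53.TS.t_ASM Pool.Agent.Q53.TS.t_HOM Pool.Agent.Q53.TS.t_LOW t_MAIN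

end Pool.Agent.Results.MP_de2958_co.TightCycleExponent
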